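import Mathlib
import Pool.Agent.R325.DPTree

/-!
# Exponential domination of trees of bounded degree

The complete `5`-ary tree of depth `h` has maximum degree at most `6` and at least `5 ^ h` vertices,
and any `4 ^ h` of its leaves form an exponential dominating set. So the exponential domination
number of trees of maximum degree at most `6` is not bounded below by `c n / log n`.
-/

set_option autoImplicit false

open SimpleGraph

namespace Pool.Agent.Results.MP_75fda7_co.SmallDominatingLeaves

/-- The path `p` from `u` to `v` is admissible for `S`: exactly one of its endvertices lies in `S`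
and no internal vertex of it lies in `S`. -/
def Admissible {V : Type} {G : SimpleGraph V} (S : Finset V) {u v : V} (p : G.Walk u v) : Prop :=
  p.IsPath ∧ (∃! x, (x = u ∨ x = v) ∧ x ∈ S) ∧ ∀ x ∈ p.support, x ≠ u → x ≠ v → x ∉ S

/-- `dist_{(G,S)}(u,v)`: the least number of edges of an admissible path, `⊤` if there is none. -/
noncomputable def sdist {V : Type} (G : SimpleGraph V) (S : Finset V) (u v : V) : ℕ∞ :=
  ⨅ (p : G.Walk u v) (_ : Admissible S p), (p.length : ℕ∞)

/-- `w_{(G,S)}(u)`, the sum over `v ∈ S` of `(1/2) ^ (dist_{(G,S)}(u,v) - 1)`, where an infinite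
distance contributes `0`. -/
noncomputable def weight {V : Type} (G : SimpleGraph V) (S : Finset V) (u : V) : ℝ :=
  ∑ v ∈ S, if sdist G S u v = ⊤ then 0 else (1 / 2 : ℝ) ^ (((sdist G S u v).toNat : ℤ) - 1)

/-- `S` is an exponential dominating set of `G`. -/
def IsExpDominating {V : Type} (G : SimpleGraph V) (S : Finset V) : Prop :=
  ∀ u, 1 ≤ weight G S u

/-- The exponential domination number. -/
noncomputable def gammaE {V : Type} (G : SimpleGraph V) : ℕ :=
  sInf {k | ∃ S : Finset V, IsExpDominating G S ∧ S.card = k}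

/-! ### the complete `5`-ary tree of depth `h` -/

/-- words of length at most `h` over five letters -/
abbrev Vt (h : ℕ) : Type := {l : List (Fin 5) // l.length ≤ h}

instance (h : ℕ) : Finite (Vt h) := (List.finite_length_le (Fin 5) h).to_subtype

noncomputable instance (h : ℕ) : Fintype (Vt h) := Fintype.ofFinite _

/-- the root -/
def root (h : ℕ) : Vt h := ⟨[], by simp⟩

/-- the parent -/
def par (h : ℕ) (x : Vt h) : Vt h := ⟨x.1.tail, by have := x.2; rw [List.length_tail]; omega⟩

/-- the depth -/
def dep (h : ℕ) (x : Vt h) : ℕ := x.1.length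

theorem dep_par (h : ℕ) (x : Vt h) (hx : x ≠ root h) : dep h x = dep h (par h x) + 1 := by
  obtain ⟨l, hl⟩ := x
  cases l with
  | nil => exact absurd rfl hx
  | cons a l => simp [dep, par]

/-- the tree -/
abbrev T (h : ℕ) : SimpleGraph (Vt h) := Pool.Agent.R325.DP.parGraph (root h) (par h)

theorem isTree (h : ℕ) : (T h).IsTree := Pool.Agent.R325.DP.isTree_parGraph (dep_par h)

/-- every vertex has at most six neighbours -/
theorem degree_le (h : ℕ) (x : Vt h) : {y | (T h).Adj x y}.ncard ≤ 6 := by
  classical
  have hsub : {y | (T h).Adj x y} ⊆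
      Set.range (fun o : Option (Fin 5) => match o with
        | none => par h x
        | some a => if ha : (a :: x.1).length ≤ h then (⟨a :: x.1, ha⟩ : Vt h) else x) := by
    rintro y hy
    rcases hy.2 with ⟨_, h2⟩ | ⟨h1, h2⟩
    · exact ⟨none, h2⟩
    · obtain ⟨l, hl⟩ := y
      cases l with
      | nil => exact absurd rfl h1
      | cons a l =>
        refine ⟨some a, ?_⟩
        have h3 : l = x.1 := by rw [← h2]; rfl
        subst h3
        simp only [hl, dif_pos]
  refine (Set.ncard_le_ncard hsub (Set.finite_range _)).trans ?_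
  rw [← Set.image_univ]
  refine (Set.ncard_image_le Set.finite_univ).trans ?_
  rw [Set.ncard_univ, Nat.card_eq_fintype_card]
  simp

/-- the walk to the root avoids the other vertices of depth `h` -/
theorem walk_root (h : ℕ) : ∀ n (x : Vt h), dep h x = n →
    ∃ p : (T h).Walk x (root h), p.length ≤ n ∧ ∀ y ∈ p.support, y = x ∨ dep h y < h ∨ h = 0 := by
  intro n
  induction n with
  | zero =>
    intro x hx
    have : x = root h := by
      by_contra hc
      have := dep_par h x hc
      omega
    subst this
    exact ⟨Walk.nil, le_rfl, by simp⟩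
  | succ n ih =>
    intro x hx
    by_cases hr : x = root h
    · subst hr
      exact ⟨Walk.nil, by simp, by simp⟩
    · have h1 := dep_par h x hr
      obtain ⟨p, hp1, hp2⟩ := ih (par h x) (by omega)
      refine ⟨Walk.cons (Pool.Agent.R325.DP.adj_par (dep_par h) hr) p, ?_, ?_⟩
      · rw [Walk.length_cons]; omega
      · intro y hy
        rw [Walk.support_cons, List.mem_cons] at hy
        rcases hy with hy | hy
        · exact Or.inl hy
        · right
          rcases hp2 y hy with h3 | h3
          · left
            rw [h3]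
            have : dep h x ≤ h := x.2
            omega
          · exact h3

/-- two vertices are joined by a path of length at most `2 h` whose internal vertices are not
leaves -/
theorem exists_path (h : ℕ) (x y : Vt h) :
    ∃ p : (T h).Walk x y, p.IsPath ∧ p.length ≤ 2 * h ∧
      ∀ z ∈ p.support, z ≠ x → z ≠ y → dep h z < h ∨ h = 0 := by
  classical
  obtain ⟨p, hp1, hp2⟩ := walk_root h _ x rfl
  obtain ⟨q, hq1, hq2⟩ := walk_root h _ y rfl
  refine ⟨(p.append q.reverse).bypass, Walk.bypass_isPath _, ?_, ?_⟩
  · refine (Walk.length_bypass_le_length _).trans ?_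
    rw [Walk.length_append, Walk.length_reverse]
    have h1 : dep h x ≤ h := x.2
    have h2 : dep h y ≤ h := y.2
    omega
  · intro z hz hzx hzy
    have hz' := Walk.support_bypass_subset_support _ hz
    rw [Walk.mem_support_append_iff, Walk.support_reverse, List.mem_reverse] at hz'
    rcases hz' with h3 | h3
    · rcases hp2 z h3 with h4 | h4
      · exact absurd h4 hzx
      · exact h4
    · rcases hq2 z h3 with h4 | h4
      · exact absurd h4 hzy
      · exact h4

/-- Any `4 ^ h` leaves form an exponential dominating set. -/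
theorem dominating (h : ℕ) (hh : 0 < h) (S : Finset (Vt h)) (hS : ∀ x ∈ S, dep h x = h)
    (hc : 4 ^ h ≤ S.card) : IsExpDominating (T h) S := by
  classical
  intro u
  by_cases hu : u ∈ S
  · -- the vertex itself contributes `2`
    have h0 : sdist (T h) S u u = 0 := by
      have : sdist (T h) S u u ≤ 0 := by
        refine iInf₂_le_of_le (Walk.nil : (T h).Walk u u) ⟨Walk.IsPath.nil, ?_, ?_⟩ ?_
        · exact ⟨u, ⟨Or.inl rfl, hu⟩, by rintro y ⟨h1 | h1, _⟩ <;> exact h1⟩
        · intro x hx hxu
          rw [Walk.support_nil, List.mem_singleton] at hx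
          exact absurd hx hxu
        · simp
      exact le_antisymm this bot_le
    unfold weight
    have hle : (2 : ℝ) ≤ ∑ v ∈ S, if sdist (T h) S u v = ⊤ then (0 : ℝ) else
        (1 / 2 : ℝ) ^ (((sdist (T h) S u v).toNat : ℤ) - 1) := by
      refine le_trans ?_ (Finset.single_le_sum (f := fun v => if sdist (T h) S u v = ⊤ then (0 : ℝ) else
        (1 / 2 : ℝ) ^ (((sdist (T h) S u v).toNat : ℤ) - 1)) (fun v _ => ?_) hu)
      · simp only [h0]
        norm_num
      · split_ifs
        · exact le_rfl
        · positivity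
    linarith
  · -- every leaf of `S` contributes at least `2 / 4 ^ h`
    have hterm : ∀ v ∈ S, 2 / (4 : ℝ) ^ h ≤ if sdist (T h) S u v = ⊤ then (0 : ℝ) else
        (1 / 2 : ℝ) ^ (((sdist (T h) S u v).toNat : ℤ) - 1) := by
      intro v hv
      obtain ⟨p, hp, hlen, hint⟩ := exists_path h u v
      have hle : sdist (T h) S u v ≤ (2 * h : ℕ) := by
        refine iInf₂_le_of_le p ⟨hp, ⟨v, ⟨Or.inr rfl, hv⟩, ?_⟩, ?_⟩ (by exact_mod_cast hlen)
        · rintro y ⟨h1 | h1, h2⟩
          · rw [h1] at h2; exact absurd h2 hu
          · exact h1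
        · intro x hx hxu hxv hxS
          rcases hint x hx hxu hxv with h1 | h1
          · rw [hS x hxS] at h1; omega
          · omega
      have htop : sdist (T h) S u v ≠ ⊤ := fun h1 => by
        rw [h1, top_le_iff] at hle
        exact absurd hle (ENat.natCast_ne_top _)
      rw [if_neg htop]
      have hnat : (sdist (T h) S u v).toNat ≤ 2 * h := by
        have := ENat.toNat_le_toNat hle (ENat.natCast_ne_top _)
        simpa using this
      have e1 : (1 / 2 : ℝ) ^ (((sdist (T h) S u v).toNat : ℤ) - 1) =
          2 / (2 : ℝ) ^ (sdist (T h) S u v).toNat := by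
        rw [zpow_sub₀ (by norm_num), zpow_natCast, zpow_one, one_div, inv_pow]
        field_simp
      rw [e1]
      apply div_le_div_of_nonneg_left (by norm_num) (by positivity)
      calc (2 : ℝ) ^ (sdist (T h) S u v).toNat ≤ 2 ^ (2 * h) :=
            pow_le_pow_right₀ (by norm_num) hnat
        _ = 4 ^ h := by rw [pow_mul]; norm_num
    have hsum := Finset.sum_le_sum hterm
    rw [Finset.sum_const, nsmul_eq_mul] at hsum
    refine le_trans ?_ hsum
    have h4 : (0 : ℝ) < 4 ^ h := by positivity
    have hc' : ((4 : ℝ) ^ h) ≤ S.card := by exact_mod_cast hc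
    rw [mul_div_assoc', le_div_iff₀ h4]
    linarith

theorem card_ge (h : ℕ) : 5 ^ h ≤ (Finset.univ.filter fun x : Vt h => dep h x = h).card := by
  classical
  have : (Finset.univ : Finset (Fin h → Fin 5)).card ≤
      (Finset.univ.filter fun x : Vt h => dep h x = h).card := by
    apply Finset.card_le_card_of_injOn
      (fun f : Fin h → Fin 5 => (⟨List.ofFn f, by simp⟩ : Vt h))
    · intro f _
      rw [Finset.mem_coe, Finset.mem_filter]
      exact ⟨Finset.mem_univ _, by simp [dep]⟩
    · intro f _ g _ hfg
      have := congrArg Subtype.val hfg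
      exact List.ofFn_injective this
  simpa using this

theorem card_le (h : ℕ) : Fintype.card (Vt h) ≤ 6 ^ h := by
  classical
  have : Fintype.card (Vt h) ≤ Fintype.card (Fin h → Option (Fin 5)) := by
    apply Fintype.card_le_of_injective (fun (x : Vt h) (i : Fin h) => x.1[i.1]?)
    intro x y hxy
    apply Subtype.ext
    apply List.ext_getElem?
    intro i
    by_cases hi : i < h
    · exact congrFun hxy ⟨i, hi⟩
    · rw [List.getElem?_eq_none (by have := x.2; omega), List.getElem?_eq_none (by have := y.2; omega)]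
  simpa using this

/-- The tree of depth `h` has an exponential dominating set of size `4 ^ h`. -/
theorem gammaE_le (h : ℕ) (hh : 0 < h) : gammaE (T h) ≤ 4 ^ h := by
  classical
  obtain ⟨S, hS, hc⟩ := Finset.exists_subset_card_eq
    (s := Finset.univ.filter fun x : Vt h => dep h x = h) (n := 4 ^ h)
    ((Nat.pow_le_pow_left (by norm_num) h).trans (card_ge h))
  exact Nat.sInf_le ⟨S, dominating h hh S (fun x hx => (Finset.mem_filter.1 (hS hx)).2) hc.ge, hc⟩

/-- For trees of maximum degree at most `6` the exponential domination number is not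
`Ω(n / log n)`; it can be as small as `n ^ (log 4 / log 5)`, for arbitrarily large orders `n`. -/
theorem result :
    (¬ ∀ Δ : ℕ, ∃ c : ℝ, 0 < c ∧ ∀ (V : Type) [Fintype V] (G : SimpleGraph V), G.IsTree →
      (∀ x, {y | G.Adj x y}.ncard ≤ Δ) → 2 ≤ Fintype.card V →
      c * (Fintype.card V / Real.log (Fintype.card V)) ≤ gammaE G) ∧
    (∀ N : ℕ, ∃ (V : Type) (_ : Fintype V) (G : SimpleGraph V), G.IsTree ∧
      (∀ x, {y | G.Adj x y}.ncard ≤ 6) ∧ N ≤ Fintype.card V ∧ 2 ≤ Fintype.card V ∧
      (gammaE G : ℝ) ≤ (Fintype.card V : ℝ) ^ (Real.log 4 / Real.log 5)) := by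
  have hcard : ∀ h : ℕ, 5 ^ h ≤ Fintype.card (Vt h) := fun h =>
    (card_ge h).trans (Finset.card_filter_le _ _ |>.trans (by rw [Finset.card_univ]))
  constructor
  · intro hall
    obtain ⟨c, hc, hb⟩ := hall 6
    -- growth
    have hlim : Filter.Tendsto (fun h : ℕ => (h : ℝ) * (4 / 5 : ℝ) ^ h) Filter.atTop (nhds 0) :=
      tendsto_self_mul_const_pow_of_lt_one (by norm_num) (by norm_num)
    have hlog6 : 0 < Real.log 6 := Real.log_pos (by norm_num)
    have hev := (hlim.eventually (gt_mem_nhds (show (0 : ℝ) < c / Real.log 6 by positivity))).and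
      (Filter.eventually_ge_atTop 1)
    obtain ⟨h, h1, h2⟩ := hev.exists
    have hn2 : 2 ≤ Fintype.card (Vt h) := by
      have : 5 ^ 1 ≤ 5 ^ h := Nat.pow_le_pow_right (by norm_num) h2
      have := hcard h
      omega
    have h3 := hb (Vt h) (T h) (isTree h) (degree_le h) hn2
    have h4 : (gammaE (T h) : ℝ) ≤ 4 ^ h := by exact_mod_cast gammaE_le h (by omega)
    have h5 : (5 : ℝ) ^ h ≤ Fintype.card (Vt h) := by exact_mod_cast hcard h
    have h6 : (Fintype.card (Vt h) : ℝ) ≤ 6 ^ h := by exact_mod_cast card_le h
    have hpos : (0 : ℝ) < Fintype.card (Vt h) := lt_of_lt_of_le (by positivity) h5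
    have hlogpos : 0 < Real.log (Fintype.card (Vt h)) :=
      Real.log_pos (by exact_mod_cast (show 1 < Fintype.card (Vt h) by omega))
    have h7 : Real.log (Fintype.card (Vt h)) ≤ h * Real.log 6 := by
      rw [← Real.log_pow]
      exact Real.log_le_log hpos h6
    have h8 : c * ((5 : ℝ) ^ h / (h * Real.log 6)) ≤ 4 ^ h := by
      refine le_trans ?_ (h3.trans h4)
      apply mul_le_mul_of_nonneg_left _ hc.le
      apply div_le_div₀ hpos.le h5 hlogpos h7
    have hh : (0 : ℝ) < h := by exact_mod_cast (show 0 < h by omega)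
    have h9 : c * (5 : ℝ) ^ h ≤ 4 ^ h * (h * Real.log 6) := by
      rw [mul_div_assoc', div_le_iff₀ (by positivity)] at h8
      exact h8
    have h10 : (h : ℝ) * (4 / 5 : ℝ) ^ h * Real.log 6 < c := by
      rwa [lt_div_iff₀ hlog6] at h1
    rw [div_pow] at h10
    have h11 : (h : ℝ) * ((4 : ℝ) ^ h / 5 ^ h) * Real.log 6 = (4 ^ h * (h * Real.log 6)) / 5 ^ h := by
      field_simp
    rw [h11, div_lt_iff₀ (by positivity)] at h10
    linarith
  · intro N
    refine ⟨Vt (N + 1), inferInstance, T (N + 1), isTree _, degree_le _, ?_, ?_, ?_⟩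
    · have := hcard (N + 1)
      have h2 : N + 1 < 5 ^ (N + 1) := Nat.lt_pow_self (by norm_num)
      omega
    · have := hcard (N + 1)
      have h2 : 5 ^ 1 ≤ 5 ^ (N + 1) := Nat.pow_le_pow_right (by norm_num) (by omega)
      omega
    · have h4 : (gammaE (T (N + 1)) : ℝ) ≤ 4 ^ (N + 1) := by
        exact_mod_cast gammaE_le (N + 1) (by omega)
      have h5 : (5 : ℝ) ^ (N + 1) ≤ Fintype.card (Vt (N + 1)) := by exact_mod_cast hcard (N + 1)
      refine h4.trans ?_
      have hl5 : 0 < Real.log 5 := Real.log_pos (by norm_num)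
      have hl4 : 0 < Real.log 4 := Real.log_pos (by norm_num)
      calc (4 : ℝ) ^ (N + 1) = ((5 : ℝ) ^ (N + 1)) ^ (Real.log 4 / Real.log 5) := by
            rw [← Real.rpow_natCast 5, ← Real.rpow_mul (by norm_num),
              ← Real.rpow_natCast 4, ← Real.exp_log (show (0 : ℝ) < 4 by norm_num),
              ← Real.exp_log (show (0 : ℝ) < 5 by norm_num), ← Real.exp_mul, ← Real.exp_mul,
              Real.log_exp, Real.log_exp]
            congr 1
            field_simp
        _ ≤ _ := Real.rpow_le_rpow (by positivity) h5 (by positivity)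

end Pool.Agent.Results.MP_75fda7_co.SmallDominatingLeaves
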